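import Pool.Agent.H19Core.Pair

/-!
# A coherent core with one set of neighbours per vertex (idea of helper20, board row 1231)
-/

namespace Pool.Agent.H19Core.Fun

open Set Cardinal Pool.Agent.H52EH Pool.Agent.H20EH Pool.Agent.H19Core.Pair

universe u v

/-- a set of pairs is the graph of a partial function -/
def Func {V : Type u} (P : Set (V × Set V)) : Prop :=
  ∀ x W W', (x, W) ∈ P → (x, W') ∈ P → W = W'

/-- colouring from levels -/
theorem of_levels {V : Type u} {ι : Type v} [LinearOrder ι] (G : SimpleGraph V) (lev : V → ι)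
    (hlow : ∀ x : V, ∃ φ : V → ℕ, ∀ y z, G.Adj x y → G.Adj x z → G.Adj y z →
      lev y < lev x → lev z < lev x → φ y ≠ φ z)
    (hlev : ∀ i, TriColorable (G.comap (Subtype.val : {x // lev x = i} → V))) :
    TriColorable G := by
  classical
  choose φ hφ using hlow
  have hlevel : ∀ i : ι, ∃ c : V → V → ℕ, (∀ x y, c x y = c y x) ∧
      ∀ x y z, lev x = i → lev y = i → lev z = i → G.Adj x y → G.Adj y z → G.Adj x z →
        ¬(c x y = c y z ∧ c y z = c x z) := by
    intro i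
    obtain ⟨c, hc1, hc2⟩ := hlev i
    refine ⟨fun x y => if h : lev x = i ∧ lev y = i then c ⟨x, h.1⟩ ⟨y, h.2⟩ else 0, ?_, ?_⟩
    · intro x y
      by_cases h : lev x = i ∧ lev y = i
      · simp only [h, and_self, dif_pos]
        exact hc1 _ _
      · have h' : ¬(lev y = i ∧ lev x = i) := fun h' => h h'.symm
        simp only [h, h', dif_neg, not_false_iff]
    · intro x y z hx hy hz hxy hyz hxz
      have h1 : lev x = i ∧ lev y = i := ⟨hx, hy⟩
      have h2 : lev y = i ∧ lev z = i := ⟨hy, hz⟩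
      simp only [h1, h2]
      exact hc2 ⟨x, hx⟩ ⟨y, hy⟩ ⟨z, hz⟩ hxy hyz hxz
  choose c hc1 hc2 using hlevel
  let col : V → V → ℕ := fun x y =>
    if lev x = lev y then 2 * c (lev x) x y
    else if lev y < lev x then 2 * φ x y + 1 else 2 * φ y x + 1
  have hsymm : ∀ x y, col x y = col y x := by
    intro x y
    simp only [col]
    rcases lt_trichotomy (lev x) (lev y) with h | h | h
    · simp [h, h.ne, h.ne', not_lt.2 h.le]
    · simp [h, hc1 _ x y]
    · simp [h, h.ne, h.ne', not_lt.2 h.le]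
  have heven : ∀ x y, lev x = lev y → col x y = 2 * c (lev x) x y := by
    intro x y h
    simp [col, h]
  have hodd : ∀ x y, lev y < lev x → col x y = 2 * φ x y + 1 := by
    intro x y h
    simp [col, h, h.ne']
  refine ⟨col, hsymm, ?_⟩
  have top1 : ∀ x y z, lev y < lev x → lev z < lev x → G.Adj x y → G.Adj x z → G.Adj y z →
      col x y ≠ col x z := by
    intro x y z hy hz hxy hxz hyz
    rw [hodd x y hy, hodd x z hz]
    have := hφ x y z hxy hxz hyz hy hz
    omega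
  have top2 : ∀ x y z, lev x = lev y → lev z < lev x → col x y ≠ col x z := by
    intro x y z hxy hz
    rw [heven x y hxy, hodd x z hz]
    omega
  rintro x y z hxy hyz hxz ⟨h1, h2⟩
  have h3 : col x y = col x z := h1.trans h2
  have h1' : col y x = col y z := by rw [hsymm y x]; exact h1
  have h2' : col z y = col z x := by rw [hsymm z y, hsymm z x]; exact h2
  rcases lt_trichotomy (lev x) (lev y) with hxy' | hxy' | hxy'
  · rcases lt_trichotomy (lev y) (lev z) with hyz' | hyz' | hyz'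
    · exact top1 z y x hyz' (hxy'.trans hyz') hyz.symm hxz.symm hxy.symm h2'
    · exact top2 y z x hyz' hxy' h1'.symm
    · exact top1 y x z hxy' hyz' hxy.symm hyz hxz h1'
  · rcases lt_trichotomy (lev y) (lev z) with hyz' | hyz' | hyz'
    · exact top1 z y x hyz' (hxy' ▸ hyz') hyz.symm hxz.symm hxy.symm h2'
    · refine hc2 (lev x) x y z rfl hxy'.symm (hxy'.trans hyz').symm hxy hyz hxz ?_
      rw [heven x y hxy', heven y z hyz', ← hxy'] at h1
      rw [heven y z hyz', heven x z (hxy'.trans hyz'), ← hxy'] at h2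
      exact ⟨by omega, by omega⟩
    · exact top2 x y z hxy' (hxy' ▸ hyz') h3
  · rcases lt_trichotomy (lev x) (lev z) with hxz' | hxz' | hxz'
    · exact top1 z y x (hxy'.trans hxz') hxz' hyz.symm hxz.symm hxy.symm h2'
    · exact top2 x z y hxz' hxy' h3.symm
    · exact top1 x y z hxy' hxz' hxy hxz hyz h3

/-- the closing operation attached to a function `W` -/
theorem exists_op {V : Type u} (G : SimpleGraph V) (μ : Cardinal.{u})
    (hno : ∀ P : Set (V × Set V), Func P → P ⊆ Step G μ P → P = ∅)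
    (W : V → Set V) (hW : ∀ x, W x ⊆ G.neighborSet x) :
    ∃ op : Finset V → Set V, (∀ F, #(op F) ≤ μ) ∧
      ∀ x, ¬CC G (W x) → ∃ F : Finset V, F.Nonempty ∧ ↑F ⊆ W x ∧ x ∈ op F := by
  classical
  let Γ : Set V →o Set V :=
    { toFun := fun Q => {x | ¬CC G (W x) ∧
        ∀ F : Finset V, ↑F ⊆ W x → μ < #{z | z ∈ Q ∧ ↑F ⊆ W z}}
      monotone' := by
        rintro Q Q' hQ x ⟨h1, h2⟩
        refine ⟨h1, fun F hF => (h2 F hF).trans_le (mk_le_mk_of_subset ?_)⟩
        rintro z ⟨hz1, hz2⟩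
        exact ⟨hQ hz1, hz2⟩ }
  have hgfp : Γ.gfp = ∅ := by
    have hP := hno {p | p.1 ∈ Γ.gfp ∧ p.2 = W p.1} (by
      rintro x W1 W2 ⟨-, h1⟩ ⟨-, h2⟩
      exact h1.trans h2.symm) (by
      rintro ⟨x, W'⟩ ⟨hx, hW'⟩
      obtain rfl : W' = W x := hW'
      have h1 : x ∈ Γ Γ.gfp := by rw [Γ.map_gfp]; exact hx
      refine ⟨hW x, h1.1, fun F hF => (h1.2 F hF).trans_le (mk_le_mk_of_subset ?_)⟩
      rintro z ⟨hz1, hz2⟩
      exact ⟨W z, ⟨hz1, rfl⟩, hz2⟩)
    rw [Set.eq_empty_iff_forall_notMem] at hP ⊢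
    intro x hx
    exact hP (x, W x) ⟨hx, rfl⟩
  obtain ⟨a₀, ha₀⟩ := OrdinalApprox.gfp_mem_range_gfpApprox Γ
  have hex : ∀ x : V, ∃ a : Ordinal.{u}, x ∉ OrdinalApprox.gfpApprox Γ ⊤ a := by
    intro x
    refine ⟨a₀, ?_⟩
    rw [ha₀, hgfp]
    exact fun h => h
  let r : V → Ordinal.{u} := fun x => sInf {a | x ∉ OrdinalApprox.gfpApprox Γ ⊤ a}
  have hr1 : ∀ x, x ∉ OrdinalApprox.gfpApprox Γ ⊤ (r x) := fun x => csInf_mem (hex x)
  have hr2 : ∀ x b, b < r x → x ∈ OrdinalApprox.gfpApprox Γ ⊤ b := by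
    intro x b hb
    by_contra h
    exact absurd (csInf_le' (s := {a | x ∉ OrdinalApprox.gfpApprox Γ ⊤ a}) h) (not_le.2 hb)
  refine ⟨fun F => {y | ↑F ⊆ W y ∧ #{z | ↑F ⊆ W z ∧ r y ≤ r z} ≤ μ}, ?_, ?_⟩
  · intro F
    rcases Set.eq_empty_or_nonempty {y | ↑F ⊆ W y ∧ #{z | ↑F ⊆ W z ∧ r y ≤ r z} ≤ μ}
      with he | hne
    · change #{y | ↑F ⊆ W y ∧ #{z | ↑F ⊆ W z ∧ r y ≤ r z} ≤ μ} ≤ μ
      rw [he]
      simp
    · obtain ⟨_, ⟨y0, hy0, rfl⟩, hmin⟩ :=
        (wellFounded_lt (α := Ordinal.{u})).has_min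
          (r '' {y | ↑F ⊆ W y ∧ #{z | ↑F ⊆ W z ∧ r y ≤ r z} ≤ μ}) (hne.image r)
      refine (mk_le_mk_of_subset ?_).trans hy0.2
      intro z hz
      exact ⟨hz.1, not_lt.1 (hmin _ ⟨z, hz, rfl⟩)⟩
  · intro x hCC
    have h1 := hr1 x
    rw [OrdinalApprox.gfpApprox] at h1
    have h2 : ∃ b, b < r x ∧ x ∉ Γ (OrdinalApprox.gfpApprox Γ ⊤ b) := by
      by_contra h
      push Not at h
      apply h1
      refine ⟨trivial, ?_⟩
      rw [Set.iInf_eq_iInter, Set.mem_iInter]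
      intro b
      rw [Set.iInf_eq_iInter, Set.mem_iInter]
      intro hb
      exact h b hb
    obtain ⟨b, hb, hxb⟩ := h2
    have h3 : ∃ F : Finset V, ↑F ⊆ W x ∧
        #{z | z ∈ OrdinalApprox.gfpApprox Γ ⊤ b ∧ ↑F ⊆ W z} ≤ μ := by
      by_contra h
      push Not at h
      exact hxb ⟨hCC, h⟩
    obtain ⟨F, hF1, hF2⟩ := h3
    have hWne : (W x).Nonempty := by
      by_contra h
      rw [Set.not_nonempty_iff_eq_empty] at h
      apply hCC
      refine ⟨fun _ => 0, ?_⟩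
      rw [h]
      intro y hy
      exact absurd hy (Set.notMem_empty y)
    rcases F.eq_empty_or_nonempty with rfl | hF
    · obtain ⟨w, hw⟩ := hWne
      refine ⟨{w}, Finset.singleton_nonempty w, by simpa using hw, by simpa using hw, ?_⟩
      refine (mk_le_mk_of_subset ?_).trans hF2
      rintro z ⟨-, hz⟩
      exact ⟨hr2 z b (hb.trans_le hz), by simp⟩
    · refine ⟨F, hF, hF1, hF1, ?_⟩
      refine (mk_le_mk_of_subset ?_).trans hF2
      rintro z ⟨hz1, hz⟩
      exact ⟨hr2 z b (hb.trans_le hz), hz1⟩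

/-- the lower neighbours of `x` with respect to an increasing family -/
def low {V : Type u} {ι : Type v} (G : SimpleGraph V) (B : ι → Set V) (x : V) : Set V :=
  {y | G.Adj x y ∧ ∃ j, y ∈ B j ∧ x ∉ B j}

theorem func_image {V : Type u} {p : V → Prop} (P : Set ({x // p x} × Set {x // p x}))
    (hP : Func P) : Func {t : V × Set V | ∃ q ∈ P, t = (q.1.1, Subtype.val '' q.2)} := by
  rintro x W W' ⟨⟨a, A⟩, hq, h⟩ ⟨⟨a', A'⟩, hq', h'⟩
  rw [Prod.mk.injEq] at h h'
  obtain ⟨h1, h2⟩ := h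
  obtain ⟨h1', h2'⟩ := h'
  have : a = a' := Subtype.ext (h1.symm.trans h1')
  subst this
  have : A = A' := hP a A A' hq hq'
  subst this
  rw [h2, h2']

theorem step_image {V : Type u} {p : V → Prop} (G : SimpleGraph V) (μ : Cardinal.{u})
    (P : Set ({x // p x} × Set {x // p x}))
    (hP : P ⊆ Step (G.comap (Subtype.val : {x // p x} → V)) μ P) :
    {t : V × Set V | ∃ q ∈ P, t = (q.1.1, Subtype.val '' q.2)} ⊆
      Step G μ {t : V × Set V | ∃ q ∈ P, t = (q.1.1, Subtype.val '' q.2)} := by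
  classical
  rintro _ ⟨q, hq, rfl⟩
  obtain ⟨hq1, hq2, hq3⟩ := hP hq
  refine ⟨?_, ?_, ?_⟩
  · rintro _ ⟨y, hy, rfl⟩
    exact hq1 hy
  · rintro ⟨c, hc⟩
    exact hq2 ⟨fun y => c y.1, fun y hy z hz hyz => hc y.1 ⟨y, hy, rfl⟩ z.1 ⟨z, hz, rfl⟩ hyz⟩
  · intro F hF
    let F' : Finset {x // p x} := F.subtype p
    have hmem : ∀ y ∈ F, ∃ h : p y, (⟨y, h⟩ : {x // p x}) ∈ q.2 := by
      intro y hy
      obtain ⟨z, hz, rfl⟩ := hF hy
      exact ⟨z.2, hz⟩
    refine (hq3 F' ?_).trans_le ?_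
    · intro y hy
      obtain ⟨h, h2⟩ := hmem y.1 (Finset.mem_subtype.1 hy)
      exact h2
    · have hmap : ∀ z : {z : {x // p x} | ∃ W', (z, W') ∈ P ∧ (↑F' : Set {x // p x}) ⊆ W'},
          z.1.1 ∈ {z : V | ∃ W', (z, W') ∈
            {t : V × Set V | ∃ q ∈ P, t = (q.1.1, Subtype.val '' q.2)} ∧ ↑F ⊆ W'} := by
        rintro ⟨z, W', hW1, hW2⟩
        refine ⟨Subtype.val '' W', ⟨(z, W'), hW1, rfl⟩, ?_⟩
        intro y hy
        obtain ⟨h, -⟩ := hmem y hy
        exact ⟨⟨y, h⟩, hW2 (Finset.mem_coe.2 (Finset.mem_subtype.2 hy)), rfl⟩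
      refine mk_le_of_injective (f := fun z => ⟨z.1.1, hmap z⟩) ?_
      intro z z' hzz
      exact Subtype.ext (Subtype.ext (by simpa using hzz))

/-- If only the empty set of pairs is a core, the graph is a countable union. -/
theorem triColorable_of_no {μ : Cardinal.{u}} (hμ : ℵ₀ ≤ μ) :
    ∀ (V : Type u) (G : SimpleGraph V)
    (_ : ∀ S : Set V, #S ≤ μ → TriColorable (G.comap (Subtype.val : S → V)))
    (_ : ∀ P : Set (V × Set V), Func P → P ⊆ Step G μ P → P = ∅), TriColorable G := by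
  suffices H : ∀ (κ : Cardinal.{u}) (V : Type u), #V = κ → ∀ (G : SimpleGraph V)
      (_ : ∀ S : Set V, #S ≤ μ → TriColorable (G.comap (Subtype.val : S → V)))
      (_ : ∀ P : Set (V × Set V), Func P → P ⊆ Step G μ P → P = ∅), TriColorable G from
    fun V => H #V V rfl
  intro κ
  induction κ using WellFoundedLT.induction with
  | ind κ ih =>
  intro V hV G hsm hno
  classical
  rcases le_or_gt #V μ with hc | hc
  · obtain ⟨c, hc1, hc2⟩ := hsm Set.univ (by rw [mk_univ]; exact hc)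
    refine ⟨fun x y => c ⟨x, trivial⟩ ⟨y, trivial⟩, fun x y => hc1 _ _, ?_⟩
    intro x y z hxy hyz hxz
    exact hc2 ⟨x, trivial⟩ ⟨y, trivial⟩ ⟨z, trivial⟩ hxy hyz hxz
  have hV0 : ℵ₀ < #V := hμ.trans_lt hc
  -- the closing operations
  have hop : ∀ W : V → Set V, ∃ op : Finset V → Set V, (∀ x, W x ⊆ G.neighborSet x) →
      (∀ F, #(op F) ≤ μ) ∧
      ∀ x, ¬CC G (W x) → ∃ F : Finset V, F.Nonempty ∧ ↑F ⊆ W x ∧ x ∈ op F := by
    intro W
    by_cases hW : ∀ x, W x ⊆ G.neighborSet x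
    · obtain ⟨op, h1, h2⟩ := exists_op G μ hno W hW
      exact ⟨op, fun _ => ⟨h1, h2⟩⟩
    · exact ⟨fun _ => ∅, fun h => absurd h hW⟩
  choose op hop' using hop
  have hlowN : ∀ (ι : Type u) (B : ι → Set V) (x : V), low G B x ⊆ G.neighborSet x :=
    fun ι B x y hy => hy.1
  let ι : Type u := (#V).ord.ToType
  have hι : #ι = #V := by simp [ι]
  obtain ⟨e⟩ : Nonempty (ι ≃ V) := Cardinal.eq.1 hι
  let A : ℕ → ι → Set V := fun n => Nat.rec (fun i => e '' Iic i)
    (fun _ B i => cl (op (low G B)) (B i)) n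
  have hA0 : ∀ i, A 0 i = e '' Iic i := fun i => rfl
  have hA1 : ∀ n i, A (n + 1) i = cl (op (low G (A n))) (A n i) := fun n i => rfl
  have hAm : ∀ n i j, i ≤ j → A n i ⊆ A n j := by
    intro n
    induction n with
    | zero =>
      intro i j h
      exact image_mono (Iic_subset_Iic.2 h)
    | succ n ihn =>
      intro i j h
      rw [hA1, hA1]
      exact cl_mono (ihn i j h)
  have hAs : ∀ n i, A n i ⊆ A (n + 1) i := fun n i => by
    rw [hA1]
    exact subset_cl _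
  have hAn : ∀ m n i, m ≤ n → A m i ⊆ A n i := by
    intro m n i h
    induction h with
    | refl => exact subset_rfl
    | step _ ih' => exact ih'.trans (hAs _ _)
  have hAc : ∀ n i, #↥(A n i) ≤ max #↥(A 0 i) μ := by
    intro n i
    induction n with
    | zero => exact le_max_left _ _
    | succ n ihn =>
      rw [hA1]
      refine (mk_cl_le' hμ (hop' _ (hlowN _ _)).1 _).trans (max_le ihn (le_max_right _ _))
  have hA0c : ∀ i, #↥(A 0 i) < #V := by
    intro i
    rw [hA0]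
    refine mk_image_le.trans_lt ?_
    have h2 : #(Iio i) < #V := by simpa [ι] using mk_Iio_lt i
    have h3 : #(Iic i) ≤ #(Iio i) + 1 := by
      rw [← Iio_insert]
      exact mk_insert_le
    refine h3.trans_lt (add_lt_of_lt hV0.le h2 ?_)
    exact (one_lt_aleph0).trans hV0
  let U : ι → Set V := fun i => ⋃ n, A n i
  have hUc : ∀ i, #↥(U i) < #V := by
    intro i
    have h := mk_iUnion_le_lift (fun n => A n i)
    rw [lift_uzero] at h
    refine h.trans_lt ?_
    have h6 : (⨆ k, lift.{0} #↥(A k i)) ≤ max #↥(A 0 i) μ := ciSup_le' fun k => by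
      rw [lift_uzero]
      exact hAc k i
    have h7 : lift.{u, 0} #ℕ = ℵ₀ := by simp
    rw [h7]
    refine (mul_le_mul' le_rfl h6).trans_lt ?_
    rw [aleph0_mul_eq (hμ.trans (le_max_right _ _))]
    exact max_lt (hA0c i) hc
  have hUm : ∀ i j, i ≤ j → U i ⊆ U j := fun i j h => iUnion_mono fun n => hAm n i j h
  -- the ranks
  have hex : ∀ x n, ∃ i, x ∈ A n i := fun x n =>
    ⟨e.symm x, hAn 0 n _ (Nat.zero_le n) ⟨e.symm x, by simp, by simp⟩⟩
  let l : ℕ → V → ι := fun n x => WellFounded.min (wellFounded_lt (α := ι)) {i | x ∈ A n i} (hex x n)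
  have hl1 : ∀ n x, x ∈ A n (l n x) := fun n x =>
    WellFounded.min_mem (wellFounded_lt (α := ι)) {i | x ∈ A n i} (hex x n)
  have hl2 : ∀ n x i, x ∈ A n i → l n x ≤ i := fun n x i hi =>
    not_lt.1 (WellFounded.not_lt_min (wellFounded_lt (α := ι)) {i | x ∈ A n i} hi)
  have hanti : ∀ m n x, m ≤ n → l n x ≤ l m x := fun m n x h =>
    hl2 n x _ (hAn m n _ h (hl1 m x))
  have hstab : ∀ x, ∃ N, ∀ n, N ≤ n → l n x = l N x := by
    intro x
    obtain ⟨_, ⟨N, rfl⟩, hmin⟩ := (wellFounded_lt (α := ι)).has_min (Set.range fun n => l n x)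
      ⟨_, 0, rfl⟩
    exact ⟨N, fun n hn => le_antisymm (hanti N n x hn) (not_lt.1 (hmin _ ⟨n, rfl⟩))⟩
  -- good stages
  have hgood : ∀ x, ∃ N, ∀ n, N ≤ n → CC G (low G (A n) x) := by
    intro x
    obtain ⟨N, hN⟩ := hstab x
    refine ⟨N, fun n hn => ?_⟩
    by_contra hCC
    obtain ⟨F, hF, hFW, hx⟩ := (hop' (low G (A n)) (hlowN _ _)).2 x hCC
    have h1 : ∀ y ∈ F, ∃ j, y ∈ A n j ∧ x ∉ A n j := fun y hy => (hFW hy).2
    have : Nonempty ι := ⟨l n x⟩
    choose! f hf1 hf2 using h1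
    obtain ⟨y0, hy0, hy0e⟩ := Finset.exists_mem_eq_sup' hF f
    have h2 : x ∉ A n (F.sup' hF f) := by
      rw [hy0e]
      exact hf2 y0 hy0
    have h3 : x ∈ A (n + 1) (F.sup' hF f) := by
      rw [hA1]
      refine cl_closed (A n (F.sup' hF f)) ?_ hx
      intro y hy
      exact subset_cl _ (hAm n _ _ (Finset.le_sup' f hy) (hf1 y hy))
    have h4 : l (n + 1) x ≤ F.sup' hF f := hl2 (n + 1) x _ h3
    have h5 : l n x = l (n + 1) x := (hN n hn).trans (hN (n + 1) (hn.trans (Nat.le_succ n))).symm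
    exact h2 (hAm n _ _ (h5.le.trans h4) (hl1 n x))
  -- the union family
  have hexU : ∀ x, ∃ i, x ∈ U i := fun x => ⟨l 0 x, mem_iUnion.2 ⟨0, hl1 0 x⟩⟩
  let lev : V → ι := fun x => WellFounded.min (wellFounded_lt (α := ι)) {i | x ∈ U i} (hexU x)
  have hlev : ∀ x, x ∈ U (lev x) := fun x =>
    WellFounded.min_mem (wellFounded_lt (α := ι)) {i | x ∈ U i} (hexU x)
  have hlev' : ∀ x i, x ∈ U i → lev x ≤ i := fun x i hi =>
    not_lt.1 (WellFounded.not_lt_min (wellFounded_lt (α := ι)) {i | x ∈ U i} hi)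
  refine of_levels G lev ?_ ?_
  · intro x
    obtain ⟨N, hN⟩ := hgood x
    have h1 : ∀ n, ∃ c : V → ℕ, ∀ y ∈ low G (A (max N n)) x, ∀ z ∈ low G (A (max N n)) x,
        G.Adj y z → c y ≠ c z := fun n => hN _ (le_max_left _ _)
    choose c hc using h1
    have h2 : ∀ y, G.Adj x y → lev y < lev x → ∃ k, ∀ n, k ≤ n → y ∈ low G (A n) x := by
      intro y hxy hy
      obtain ⟨k, hk⟩ := mem_iUnion.1 (hlev y)
      refine ⟨k, fun n hn => ⟨hxy, lev y, hAn k n _ hn hk, fun hx => ?_⟩⟩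
      exact absurd (hlev' x _ (mem_iUnion.2 ⟨n, hx⟩)) (not_le.2 hy)
    choose! k hk using h2
    refine ⟨fun y => Nat.pair (k y) (c (k y) y), ?_⟩
    intro y z hxy hxz hyz hy hz he
    rw [Nat.pair_eq_pair] at he
    obtain ⟨he1, he2⟩ := he
    rw [he1] at he2
    refine hc (k z) y ?_ z ?_ hyz he2
    · exact hk y hxy hy _ (he1 ▸ le_max_right _ _)
    · exact hk z hxz hz _ (le_max_right _ _)
  · intro i
    have hlt : #{x // lev x = i} < κ := by
      rw [← hV]
      refine (mk_le_mk_of_subset (t := U i) ?_).trans_lt (hUc i)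
      rintro x rfl
      exact hlev x
    refine ih _ hlt {x // lev x = i} rfl (G.comap Subtype.val) ?_ ?_
    · intro S hS
      obtain ⟨d, hd1, hd2⟩ := hsm (Subtype.val '' S) (mk_image_le.trans hS)
      refine ⟨fun x y => d ⟨x.1.1, x.1, x.2, rfl⟩ ⟨y.1.1, y.1, y.2, rfl⟩,
        fun x y => hd1 _ _, ?_⟩
      intro x y z hxy hyz hxz
      exact hd2 ⟨x.1.1, x.1, x.2, rfl⟩ ⟨y.1.1, y.1, y.2, rfl⟩ ⟨z.1.1, z.1, z.2, rfl⟩ hxy hyz hxz
    · intro P hP1 hP2
      rw [Set.eq_empty_iff_forall_notMem]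
      intro q hq
      have h1 := hno {p | ∃ q ∈ P, p = (q.1.1, Subtype.val '' q.2)}
        (func_image (p := fun x => lev x = i) P hP1) (step_image (p := fun x => lev x = i) G μ P hP2)
      rw [Set.eq_empty_iff_forall_notMem] at h1
      exact h1 _ ⟨q, hq, rfl⟩

/-- **The coherent core**, one set of neighbours per vertex. -/
theorem coherent_fun {V : Type u} (G : SimpleGraph V) {μ : Cardinal.{u}} (hμ : ℵ₀ ≤ μ)
    (hsm : ∀ S : Set V, #S ≤ μ → TriColorable (G.comap (Subtype.val : S → V))) :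
    ∃ P : Set (V × Set V), Func P ∧ P ⊆ Step G μ P ∧
      TriColorable (G.comap (Subtype.val : {x // ∀ W, (x, W) ∉ P} → V)) := by
  classical
  obtain ⟨P, hPmax⟩ := zorn_subset {P : Set (V × Set V) | Func P ∧ P ⊆ Step G μ P} (by
    intro C hC hchain
    refine ⟨⋃₀ C, ⟨?_, ?_⟩, fun P hP => subset_sUnion_of_mem hP⟩
    · rintro x W W' ⟨P1, hP1, h1⟩ ⟨P2, hP2, h2⟩
      rcases hchain.total hP1 hP2 with h | h
      · exact (hC hP2).1 x W W' (h h1) h2
      · exact (hC hP1).1 x W W' h1 (h h2)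
    · rintro q ⟨P1, hP1, h1⟩
      exact (Step G μ).monotone (subset_sUnion_of_mem hP1) ((hC hP1).2 h1))
  obtain ⟨hP1, hP2⟩ := hPmax.prop
  refine ⟨P, hP1, hP2, ?_⟩
  refine triColorable_of_no hμ _ _ ?_ ?_
  · intro S hS
    obtain ⟨d, hd1, hd2⟩ := hsm (Subtype.val '' S) (mk_image_le.trans hS)
    refine ⟨fun x y => d ⟨x.1.1, x.1, x.2, rfl⟩ ⟨y.1.1, y.1, y.2, rfl⟩,
      fun x y => hd1 _ _, ?_⟩
    intro x y z hxy hyz hxz
    exact hd2 ⟨x.1.1, x.1, x.2, rfl⟩ ⟨y.1.1, y.1, y.2, rfl⟩ ⟨z.1.1, z.1, z.2, rfl⟩ hxy hyz hxz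
  · intro P' hf hs
    rw [Set.eq_empty_iff_forall_notMem]
    intro q hq
    have h1 := func_image (p := fun x => ∀ W, (x, W) ∉ P) P' hf
    have h2 := step_image (p := fun x => ∀ W, (x, W) ∉ P) G μ P' hs
    set P'' : Set (V × Set V) := {t | ∃ q ∈ P', t = (q.1.1, Subtype.val '' q.2)} with hP''
    have h3 : P ∪ P'' ∈ {P : Set (V × Set V) | Func P ∧ P ⊆ Step G μ P} := by
      refine ⟨?_, ?_⟩
      · rintro x W W' (hx | hx) (hx' | hx')
        · exact hP1 x W W' hx hx'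
        · obtain ⟨q', hq', he⟩ := hx'
          have : q'.1.1 = x := (congrArg Prod.fst he).symm
          exact absurd (this ▸ hx) (q'.1.2 W)
        · obtain ⟨q', hq', he⟩ := hx
          have : q'.1.1 = x := (congrArg Prod.fst he).symm
          exact absurd (this ▸ hx') (q'.1.2 W')
        · exact h1 x W W' hx hx'
      · rintro t (ht | ht)
        · exact (Step G μ).monotone subset_union_left (hP2 ht)
        · exact (Step G μ).monotone subset_union_right (h2 ht)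
    have h4 : P ∪ P'' ⊆ P := hPmax.le_of_ge h3 subset_union_left
    exact q.1.2 _ (h4 (Or.inr ⟨q, hq, rfl⟩))

end Pool.Agent.H19Core.Fun
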