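import Pool.Agent.H20EH.Levels

/-!
# The core of a graph which is not a countable union of triangle-free graphs
(idea of helper16, board row 1075)
-/

namespace Pool.Agent.H19Core.Pair

open Set Cardinal Pool.Agent.H52EH Pool.Agent.H20EH

universe u v

/-- the subgraph of `G` induced on `W` has a proper colouring with natural numbers -/
def CC {V : Type u} (G : SimpleGraph V) (W : Set V) : Prop :=
  ∃ c : V → ℕ, ∀ y ∈ W, ∀ z ∈ W, G.Adj y z → c y ≠ c z

/-- the set of vertices `z` with a set of neighbours `W' ⊇ F` of rank at least `a` -/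
def Y {V : Type u} {O : Type v} [LinearOrder O] (G : SimpleGraph V) (r : V → Set V → O)
    (F : Finset V) (a : O) : Set V :=
  {z | ∃ W' ⊆ G.neighborSet z, ↑F ⊆ W' ∧ a ≤ r z W'}

theorem rank_coloring {O : Type v} [LinearOrder O] [WellFoundedLT O] {μ : Cardinal.{u}}
    (hμ : ℵ₀ ≤ μ) :
    ∀ (V : Type u) (G : SimpleGraph V)
    (_ : ∀ S : Set V, #S ≤ μ → TriColorable (G.comap (Subtype.val : S → V)))
    (r : V → Set V → O),
    (∀ x, ∀ W ⊆ G.neighborSet x, (∀ F : Finset V, F.Nonempty → ↑F ⊆ W →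
      μ < #{z | ∃ W' ⊆ G.neighborSet z, ↑F ⊆ W' ∧ r x W ≤ r z W'}) → CC G W) →
      TriColorable G := by
  suffices H : ∀ (κ : Cardinal.{u}) (V : Type u), #V = κ → ∀ (G : SimpleGraph V)
      (_ : ∀ S : Set V, #S ≤ μ → TriColorable (G.comap (Subtype.val : S → V)))
      (r : V → Set V → O),
      (∀ x, ∀ W ⊆ G.neighborSet x, (∀ F : Finset V, F.Nonempty → ↑F ⊆ W →
      μ < #{z | ∃ W' ⊆ G.neighborSet z, ↑F ⊆ W' ∧ r x W ≤ r z W'}) → CC G W) →
      TriColorable G from
    fun V => H #V V rfl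
  intro κ
  induction κ using WellFoundedLT.induction with
  | ind κ ih =>
  intro V hV G hsm r hG
  classical
  rcases le_or_gt #V μ with hc | hc
  · -- small vertex set
    obtain ⟨c, hc1, hc2⟩ := hsm Set.univ (by rw [mk_univ]; exact hc)
    refine ⟨fun x y => c ⟨x, trivial⟩ ⟨y, trivial⟩, fun x y => hc1 _ _, ?_⟩
    intro x y z hxy hyz hxz
    exact hc2 ⟨x, trivial⟩ ⟨y, trivial⟩ ⟨z, trivial⟩ hxy hyz hxz
  -- the closing operation
  let op : Finset V → Set V := fun F => if F = ∅ then ∅ else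
    {y | ∃ a, y ∈ Y G r F a ∧ #(Y G r F a) ≤ μ}
  have hop : ∀ F, #(op F) ≤ μ := by
    intro F
    by_cases hF : F = ∅
    · simp only [op, hF, if_true]
      simp
    · rcases Set.eq_empty_or_nonempty {a | #(Y G r F a) ≤ μ} with he | hne
      · have h0 : op F = ∅ := by
          simp only [op, hF, if_false]
          rw [Set.eq_empty_iff_forall_notMem]
          rintro y ⟨a, -, ha⟩
          have : a ∈ {a | #(Y G r F a) ≤ μ} := ha
          rw [he] at this
          exact this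
        rw [h0]
        simp
      · obtain ⟨a, ha, hmin⟩ := (wellFounded_lt (α := O)).has_min {a | #(Y G r F a) ≤ μ} hne
        refine (mk_le_mk_of_subset ?_).trans ha
        intro y hy
        have h1 : y ∈ {y | ∃ a, y ∈ Y G r F a ∧ #(Y G r F a) ≤ μ} := by
          simpa only [op, hF, if_false] using hy
        obtain ⟨b, ⟨W', hW1, hW2, hW3⟩, hb⟩ := h1
        exact ⟨W', hW1, hW2, (not_lt.1 (hmin b hb)).trans hW3⟩
  have hempty : op ∅ = ∅ := by simp only [op, if_true]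
  obtain ⟨ι, _, lev, hlev, hM⟩ := exists_levels' hμ hop hempty hc
  -- colouring of the lower neighbourhood of `x`
  have hlow : ∀ x : V, ∃ φ : V → ℕ, ∀ y z, G.Adj x y → G.Adj x z → G.Adj y z →
      lev y < lev x → lev z < lev x → φ y ≠ φ z := by
    intro x
    obtain ⟨M, hM1, hM2, hM3⟩ := hM x
    obtain ⟨c, hcc⟩ := hG x {y | G.Adj x y ∧ lev y < lev x} (fun y hy => hy.1) (by
      intro F hF hFW
      by_contra hcount
      apply hM2
      refine hM1 F (fun y hy => hM3 y (hFW hy).2) ?_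
      simp only [op, hF.ne_empty, if_false]
      exact ⟨_, ⟨{y | G.Adj x y ∧ lev y < lev x}, fun y hy => hy.1, hFW, le_rfl⟩,
        not_lt.1 hcount⟩)
    exact ⟨c, fun y z hxy hxz hyz hy hz => hcc y ⟨hxy, hy⟩ z ⟨hxz, hz⟩ hyz⟩
  choose φ hφ using hlow
  -- colourings inside the levels
  have hlevel : ∀ i : ι, ∃ c : V → V → ℕ, (∀ x y, c x y = c y x) ∧
      ∀ x y z, lev x = i → lev y = i → lev z = i → G.Adj x y → G.Adj y z → G.Adj x z →
        ¬(c x y = c y z ∧ c y z = c x z) := by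
    intro i
    have hlt : #{x // lev x = i} < κ := hV ▸ hlev i
    obtain ⟨c, hc1, hc2⟩ := ih _ hlt {x // lev x = i} rfl (G.comap Subtype.val) (by
      intro S hS
      obtain ⟨d, hd1, hd2⟩ := hsm (Subtype.val '' S) (mk_image_le.trans hS)
      refine ⟨fun x y => d ⟨x.1.1, x.1, x.2, rfl⟩ ⟨y.1.1, y.1, y.2, rfl⟩,
        fun x y => hd1 _ _, ?_⟩
      intro x y z hxy hyz hxz
      exact hd2 ⟨x.1.1, x.1, x.2, rfl⟩ ⟨y.1.1, y.1, y.2, rfl⟩ ⟨z.1.1, z.1, z.2, rfl⟩ hxy hyz hxz)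
      (fun x W => r x.1 (Subtype.val '' W)) (by
      intro x W hW hWF
      obtain ⟨c, hcc⟩ := hG x.1 (Subtype.val '' W) (by
        rintro _ ⟨y, hy, rfl⟩
        exact hW hy) (by
        intro F hF hFW
        let F' : Finset {x // lev x = i} := F.subtype (fun x => lev x = i)
        have hmem : ∀ y ∈ F, ∃ h : lev y = i, (⟨y, h⟩ : {x // lev x = i}) ∈ W := by
          intro y hy
          obtain ⟨z, hz, rfl⟩ := hFW hy
          exact ⟨z.2, hz⟩
        refine (hWF F' ?_ ?_).trans_le ?_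
        · obtain ⟨y, hy⟩ := hF
          obtain ⟨h, -⟩ := hmem y hy
          exact ⟨⟨y, h⟩, Finset.mem_subtype.2 hy⟩
        · intro y hy
          obtain ⟨h, h2⟩ := hmem y.1 (Finset.mem_subtype.1 hy)
          exact h2
        · have hmap : ∀ z : {z : {x // lev x = i} | ∃ W' ⊆ (G.comap Subtype.val).neighborSet z,
              (↑F' : Set _) ⊆ W' ∧ r x.1 (Subtype.val '' W) ≤ r z.1 (Subtype.val '' W')},
              z.1.1 ∈ {z : V | ∃ W' ⊆ G.neighborSet z, ↑F ⊆ W' ∧
                r x.1 (Subtype.val '' W) ≤ r z W'} := by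
            rintro ⟨z, W', hW1, hW2, hW3⟩
            refine ⟨Subtype.val '' W', ?_, ?_, hW3⟩
            · rintro _ ⟨y, hy, rfl⟩
              exact hW1 hy
            · intro y hy
              obtain ⟨h, -⟩ := hmem y hy
              exact ⟨⟨y, h⟩, hW2 (Finset.mem_coe.2 (Finset.mem_subtype.2 hy)), rfl⟩
          refine mk_le_of_injective (f := fun z => ⟨z.1.1, hmap z⟩) ?_
          intro z z' hzz
          exact Subtype.ext (Subtype.ext (by simpa using hzz)))
      exact ⟨fun y => c y.1, fun y hy z hz hyz => hcc y.1 ⟨y, hy, rfl⟩ z.1 ⟨z, hz, rfl⟩ hyz⟩)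
    refine ⟨fun x y => if h : lev x = i ∧ lev y = i then c ⟨x, h.1⟩ ⟨y, h.2⟩ else 0, ?_, ?_⟩
    · intro x y
      by_cases h : lev x = i ∧ lev y = i
      · simp only [h, and_self, dif_pos]
        exact hc1 _ _
      · have h' : ¬(lev y = i ∧ lev x = i) := fun h' => h h'.symm
        simp only [h, h', dif_neg, not_false_iff]
    · intro x y z hx hy hz hxy hyz hxz
      have h1 : lev x = i ∧ lev y = i := ⟨hx, hy⟩
      have h2 : lev y = i ∧ lev z = i := ⟨hy, hz⟩
      simp only [h1, h2]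
      exact hc2 ⟨x, hx⟩ ⟨y, hy⟩ ⟨z, hz⟩ hxy hyz hxz
  choose c hc1 hc2 using hlevel
  -- the colouring
  let col : V → V → ℕ := fun x y =>
    if lev x = lev y then 2 * c (lev x) x y
    else if lev y < lev x then 2 * φ x y + 1 else 2 * φ y x + 1
  have hsymm : ∀ x y, col x y = col y x := by
    intro x y
    simp only [col]
    rcases lt_trichotomy (lev x) (lev y) with h | h | h
    · simp [h, h.ne, h.ne', not_lt.2 h.le]
    · simp [h, hc1 _ x y]
    · simp [h, h.ne, h.ne', not_lt.2 h.le]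
  have heven : ∀ x y, lev x = lev y → col x y = 2 * c (lev x) x y := by
    intro x y h
    simp [col, h]
  have hodd : ∀ x y, lev y < lev x → col x y = 2 * φ x y + 1 := by
    intro x y h
    simp [col, h, h.ne']
  refine ⟨col, hsymm, ?_⟩
  have top1 : ∀ x y z, lev y < lev x → lev z < lev x → G.Adj x y → G.Adj x z → G.Adj y z →
      col x y ≠ col x z := by
    intro x y z hy hz hxy hxz hyz
    rw [hodd x y hy, hodd x z hz]
    have := hφ x y z hxy hxz hyz hy hz
    omega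
  have top2 : ∀ x y z, lev x = lev y → lev z < lev x → col x y ≠ col x z := by
    intro x y z hxy hz
    rw [heven x y hxy, hodd x z hz]
    omega
  rintro x y z hxy hyz hxz ⟨h1, h2⟩
  have h3 : col x y = col x z := h1.trans h2
  have h1' : col y x = col y z := by rw [hsymm y x]; exact h1
  have h2' : col z y = col z x := by rw [hsymm z y, hsymm z x]; exact h2
  rcases lt_trichotomy (lev x) (lev y) with hxy' | hxy' | hxy'
  · rcases lt_trichotomy (lev y) (lev z) with hyz' | hyz' | hyz'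
    · exact top1 z y x hyz' (hxy'.trans hyz') hyz.symm hxz.symm hxy.symm h2'
    · exact top2 y z x hyz' hxy' h1'.symm
    · exact top1 y x z hxy' hyz' hxy.symm hyz hxz h1'
  · rcases lt_trichotomy (lev y) (lev z) with hyz' | hyz' | hyz'
    · exact top1 z y x hyz' (hxy' ▸ hyz') hyz.symm hxz.symm hxy.symm h2'
    · refine hc2 (lev x) x y z rfl hxy'.symm (hxy'.trans hyz').symm hxy hyz hxz ?_
      rw [heven x y hxy', heven y z hyz', ← hxy'] at h1
      rw [heven y z hyz', heven x z (hxy'.trans hyz'), ← hxy'] at h2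
      exact ⟨by omega, by omega⟩
    · exact top2 x y z hxy' (hxy' ▸ hyz') h3
  · rcases lt_trichotomy (lev x) (lev z) with hxz' | hxz' | hxz'
    · exact top1 z y x (hxy'.trans hxz') hxz' hyz.symm hxz.symm hxy.symm h2'
    · exact top2 x z y hxz' hxy' h3.symm
    · exact top1 x y z hxy' hxz' hxy hxz hyz h3

/-- one step: the pairs `(x, W)` which are good with respect to `P` -/
def Step {V : Type u} (G : SimpleGraph V) (μ : Cardinal.{u}) :
    Set (V × Set V) →o Set (V × Set V) where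
  toFun := fun P => {p | p.2 ⊆ G.neighborSet p.1 ∧ ¬CC G p.2 ∧
    ∀ F : Finset V, ↑F ⊆ p.2 → μ < #{z | ∃ W', (z, W') ∈ P ∧ ↑F ⊆ W'}}
  monotone' := by
    rintro P P' hP p ⟨h1, h2, h3⟩
    refine ⟨h1, h2, fun F hF => (h3 F hF).trans_le (mk_le_mk_of_subset ?_)⟩
    rintro z ⟨W', hz1, hz2⟩
    exact ⟨W', hP hz1, hz2⟩

theorem triColorable_of_gfp {V : Type u} (G : SimpleGraph V) {μ : Cardinal.{u}} (hμ : ℵ₀ ≤ μ)
    (hsm : ∀ S : Set V, #S ≤ μ → TriColorable (G.comap (Subtype.val : S → V)))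
    (hgfp : (Step G μ).gfp = ∅) : TriColorable G := by
  classical
  obtain ⟨a₀, ha₀⟩ := OrdinalApprox.gfp_mem_range_gfpApprox (Step G μ)
  have hex : ∀ p : V × Set V, ∃ a : Ordinal.{u},
      p ∉ OrdinalApprox.gfpApprox (Step G μ) ⊤ a := by
    intro x
    refine ⟨a₀, ?_⟩
    rw [ha₀, hgfp]
    exact fun h => h
  let r : V × Set V → Ordinal.{u} :=
    fun p => sInf {a | p ∉ OrdinalApprox.gfpApprox (Step G μ) ⊤ a}
  have hr1 : ∀ p, p ∉ OrdinalApprox.gfpApprox (Step G μ) ⊤ (r p) := fun p => csInf_mem (hex p)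
  have hr2 : ∀ p b, b < r p → p ∈ OrdinalApprox.gfpApprox (Step G μ) ⊤ b := by
    intro p b hb
    by_contra h
    exact absurd (csInf_le' (s := {a | p ∉ OrdinalApprox.gfpApprox (Step G μ) ⊤ a}) h)
      (not_le.2 hb)
  refine rank_coloring hμ V G hsm (fun x W => r (x, W)) ?_
  intro x W hW hWF
  by_contra hCC
  have h1 := hr1 (x, W)
  rw [OrdinalApprox.gfpApprox] at h1
  have h2 : ∃ b, b < r (x, W) ∧ (x, W) ∉ Step G μ (OrdinalApprox.gfpApprox (Step G μ) ⊤ b) := by
    by_contra h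
    push Not at h
    apply h1
    refine ⟨trivial, ?_⟩
    rw [Set.iInf_eq_iInter, Set.mem_iInter]
    intro b
    rw [Set.iInf_eq_iInter, Set.mem_iInter]
    intro hb
    exact h b hb
  obtain ⟨b, hb, hxb⟩ := h2
  apply hxb
  have hWne : W.Nonempty := by
    by_contra h
    rw [Set.not_nonempty_iff_eq_empty] at h
    apply hCC
    refine ⟨fun _ => 0, ?_⟩
    rw [h]
    intro y hy
    exact absurd hy (Set.notMem_empty y)
  refine ⟨hW, hCC, ?_⟩
  have hne : ∀ F : Finset V, F.Nonempty → ↑F ⊆ W →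
      μ < #{z | ∃ W', (z, W') ∈ OrdinalApprox.gfpApprox (Step G μ) ⊤ b ∧ ↑F ⊆ W'} := by
    intro F hF hFW
    refine (hWF F hF hFW).trans_le (mk_le_mk_of_subset ?_)
    rintro z ⟨W', -, hz1, hz2⟩
    exact ⟨W', hr2 (z, W') b (hb.trans_le hz2), hz1⟩
  intro F hFW
  rcases F.eq_empty_or_nonempty with rfl | hF
  · obtain ⟨w, hw⟩ := hWne
    refine (hne {w} ⟨w, by simp⟩ (by simpa using hw)).trans_le (mk_le_mk_of_subset ?_)
    rintro z ⟨W', hz1, -⟩
    exact ⟨W', hz1, by simp⟩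
  · exact hne F hF hFW

/-- **The coherent core** of a graph. -/
theorem coherent {V : Type u} (G : SimpleGraph V) {μ : Cardinal.{u}} (hμ : ℵ₀ ≤ μ)
    (hsm : ∀ S : Set V, #S ≤ μ → TriColorable (G.comap (Subtype.val : S → V))) :
    ∃ P : Set (V × Set V),
      (∀ p ∈ P, p.2 ⊆ G.neighborSet p.1 ∧ ¬CC G p.2 ∧
        ∀ F : Finset V, ↑F ⊆ p.2 → μ < #{z | ∃ W', (z, W') ∈ P ∧ ↑F ⊆ W'}) ∧
      TriColorable (G.comap (Subtype.val : {x | ∀ W, (x, W) ∉ P} → V)) := by
  classical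
  refine ⟨(Step G μ).gfp, ?_, ?_⟩
  · intro p hp
    have h1 : p ∈ Step G μ (Step G μ).gfp := by rw [(Step G μ).map_gfp]; exact hp
    exact h1
  set S : Set V := {x | ∀ W, (x, W) ∉ (Step G μ).gfp} with hS
  let G' : SimpleGraph S := G.comap Subtype.val
  refine triColorable_of_gfp G' hμ ?_ ?_
  · intro T hT
    obtain ⟨d, hd1, hd2⟩ := hsm (Subtype.val '' T) (mk_image_le.trans hT)
    refine ⟨fun x y => d ⟨x.1.1, x.1, x.2, rfl⟩ ⟨y.1.1, y.1, y.2, rfl⟩,
      fun x y => hd1 _ _, ?_⟩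
    intro x y z hxy hyz hxz
    exact hd2 ⟨x.1.1, x.1, x.2, rfl⟩ ⟨y.1.1, y.1, y.2, rfl⟩ ⟨z.1.1, z.1, z.2, rfl⟩ hxy hyz hxz
  · rw [Set.eq_empty_iff_forall_notMem]
    intro q hq
    let P'' : Set (V × Set V) := {p | ∃ q ∈ (Step G' μ).gfp, p = (q.1.1, Subtype.val '' q.2)}
    have hP : P'' ≤ Step G μ P'' := by
      rintro _ ⟨q, hq, rfl⟩
      have h1 : q ∈ Step G' μ (Step G' μ).gfp := by rw [(Step G' μ).map_gfp]; exact hq
      obtain ⟨hq1, hq2, hq3⟩ := h1
      refine ⟨?_, ?_, ?_⟩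
      · rintro _ ⟨y, hy, rfl⟩
        exact hq1 hy
      · rintro ⟨c, hc⟩
        exact hq2 ⟨fun y => c y.1, fun y hy z hz hyz => hc y.1 ⟨y, hy, rfl⟩ z.1 ⟨z, hz, rfl⟩ hyz⟩
      · intro F hF
        let F' : Finset S := F.subtype (fun x => x ∈ S)
        have hmem : ∀ y ∈ F, ∃ h : y ∈ S, (⟨y, h⟩ : S) ∈ q.2 := by
          intro y hy
          obtain ⟨z, hz, rfl⟩ := hF hy
          exact ⟨z.2, hz⟩
        refine (hq3 F' ?_).trans_le ?_
        · intro y hy
          obtain ⟨h, h2⟩ := hmem y.1 (Finset.mem_subtype.1 hy)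
          exact h2
        · have hmap : ∀ z : {z : S | ∃ W', (z, W') ∈ (Step G' μ).gfp ∧ (↑F' : Set S) ⊆ W'},
              z.1.1 ∈ {z : V | ∃ W', (z, W') ∈ P'' ∧ ↑F ⊆ W'} := by
            rintro ⟨z, W', hW1, hW2⟩
            refine ⟨Subtype.val '' W', ⟨(z, W'), hW1, rfl⟩, ?_⟩
            intro y hy
            obtain ⟨h, -⟩ := hmem y hy
            exact ⟨⟨y, h⟩, hW2 (Finset.mem_coe.2 (Finset.mem_subtype.2 hy)), rfl⟩
          refine mk_le_of_injective (f := fun z => ⟨z.1.1, hmap z⟩) ?_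
          intro z z' hzz
          exact Subtype.ext (Subtype.ext (by simpa using hzz))
    have h2 : P'' ≤ (Step G μ).gfp := (Step G μ).le_gfp hP
    exact q.1.2 _ (h2 ⟨q, hq, rfl⟩)

end Pool.Agent.H19Core.Pair
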