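import Pool.Agent.H52EH.Color

/-!
# Type graphs (idea of helper20, board row 1296)

A graph on the finite sequences of elements of a linear order whose adjacency depends only on the
order type of the pair is a countable union of triangle-free graphs, if it has no `K_4`.
-/

namespace Pool.Agent.H19Core.Types

open Set Cardinal Pool.Agent.H52EH

universe u

/-- the comparison of the rows `a`, `b` (with entries `i`, `j`) -/
def R {L : Type u} [LinearOrder L] {n k : ℕ} (x y : Fin n → L) (a b : Fin k) (i j : Fin n) : Prop :=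
  if a < b then x i < y j else if b < a then y i < x j else x i < x j

theorem three : ∀ a b c : Fin 4, ∃ a' b' c' : Fin 3, (a < b ↔ a' < b') ∧ (b < a ↔ b' < a') ∧
    (a < c ↔ a' < c') ∧ (c < a ↔ c' < a') ∧ (b < c ↔ b' < c') ∧ (c < b ↔ c' < b') := by
  decide

theorem R_congr {L : Type u} [LinearOrder L] {n k l : ℕ} (x y : Fin n → L) {a b : Fin k}
    {a' b' : Fin l} (h1 : a < b ↔ a' < b') (h2 : b < a ↔ b' < a') (i j : Fin n) :
    R x y a b i j ↔ R x y a' b' i j := by
  unfold R
  simp only [h1, h2]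

/-- a finite strict weak order is realised in every infinite linear order -/
theorem realise {L : Type u} [LinearOrder L] [Infinite L] {α : Type} [Fintype α]
    (r : α → α → Prop) (irr : ∀ p, ¬r p p) (tr : ∀ p q s, r p q → r q s → r p s)
    (neg : ∀ p q s, r p q → r p s ∨ r s q) : ∃ w : α → L, ∀ p q, w p < w q ↔ r p q := by
  classical
  let rk : α → ℕ := fun p => (Finset.univ.filter (fun s => r s p)).card
  have h1 : ∀ p q, r p q → rk p < rk q := by
    intro p q hpq
    apply Finset.card_lt_card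
    rw [Finset.ssubset_iff_of_subset (by
      intro s hs
      rw [Finset.mem_filter] at hs ⊢
      exact ⟨hs.1, tr _ _ _ hs.2 hpq⟩)]
    exact ⟨p, by simp [hpq], by simp [irr p]⟩
  have h2 : ∀ p q, rk p < rk q → r p q := by
    intro p q hlt
    by_contra hpq
    apply absurd hlt
    rw [not_lt]
    apply Finset.card_le_card
    intro s hs
    rw [Finset.mem_filter] at hs ⊢
    refine ⟨hs.1, ?_⟩
    rcases neg s q p hs.2 with h | h
    · exact h
    · exact absurd h hpq
  have h3 : ∀ p, rk p < Fintype.card α + 1 := fun p =>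
    Nat.lt_succ_of_le (Finset.card_le_univ _)
  obtain ⟨s, -, hs⟩ := (Set.infinite_univ (α := L)).exists_subset_card_eq (Fintype.card α + 1)
  let e := s.orderEmbOfFin hs
  refine ⟨fun p => e ⟨rk p, h3 p⟩, fun p q => ?_⟩
  rw [OrderEmbedding.lt_iff_lt]
  exact ⟨fun h => h2 p q h, fun h => h1 p q h⟩

/-- adjacency depends only on the order type of the pair of sequences -/
def Invariant {L : Type u} [LinearOrder L] (G : SimpleGraph (Σ n : ℕ, Fin n → L)) : Prop :=
  ∀ (n m : ℕ) (f f' : Fin n → L) (g g' : Fin m → L),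
    (∀ i j, f i < f j ↔ f' i < f' j) → (∀ i j, g i < g j ↔ g' i < g' j) →
    (∀ i j, f i < g j ↔ f' i < g' j) → (∀ i j, g i < f j ↔ g' i < f' j) →
    G.Adj ⟨n, f⟩ ⟨m, g⟩ → G.Adj ⟨n, f'⟩ ⟨m, g'⟩

/-- three sequences all pairs of which have the same type give a `K_4` -/
theorem no_triple {L : Type u} [LinearOrder L] [Infinite L] (G : SimpleGraph (Σ n : ℕ, Fin n → L))
    (hG : Invariant G) (h4 : G.CliqueFree 4) (n : ℕ) (x y z : Fin n → L)
    (h1 : ∀ i j, x i < x j ↔ y i < y j) (h1' : ∀ i j, y i < y j ↔ z i < z j)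
    (h2 : ∀ i j, x i < y j ↔ y i < z j) (h2' : ∀ i j, x i < y j ↔ x i < z j)
    (h3 : ∀ i j, y i < x j ↔ z i < y j) (h3' : ∀ i j, y i < x j ↔ z i < x j)
    (hxy : G.Adj ⟨n, x⟩ ⟨n, y⟩) : False := by
  classical
  let u : Fin 3 → Fin n → L := ![x, y, z]
  have hu : ∀ (a b : Fin 3) (i j : Fin n), u a i < u b j ↔ R x y a b i j := by
    intro a b i j
    unfold R
    fin_cases a <;> fin_cases b <;> simp [u]
    · exact (h2' i j).symm
    · exact (h1 i j).symm
    · exact (h2 i j).symm
    · exact (h3' i j).symm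
    · exact (h3 i j).symm
    · exact ((h1 i j).trans (h1' i j)).symm
  obtain ⟨w, hw⟩ := realise (L := L) (α := Fin 4 × Fin n)
    (fun p q => R x y p.1 q.1 p.2 q.2) (by
      rintro ⟨a, i⟩ h
      simp [R] at h) (by
      rintro ⟨a, i⟩ ⟨b, j⟩ ⟨c, k⟩ hab hbc
      obtain ⟨a', b', c', e1, e2, e3, e4, e5, e6⟩ := three a b c
      simp only at hab hbc ⊢
      rw [R_congr x y e1 e2, ← hu] at hab
      rw [R_congr x y e5 e6, ← hu] at hbc
      rw [R_congr x y e3 e4, ← hu]
      exact hab.trans hbc) (by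
      rintro ⟨a, i⟩ ⟨b, j⟩ ⟨c, k⟩ hab
      obtain ⟨a', b', c', e1, e2, e3, e4, e5, e6⟩ := three a b c
      simp only at hab ⊢
      rw [R_congr x y e1 e2, ← hu] at hab
      rw [R_congr x y e3 e4, ← hu, R_congr x y e6 e5, ← hu]
      rcases lt_or_ge (u a' i) (u c' k) with h | h
      · exact Or.inl h
      · exact Or.inr (h.trans_lt hab))
  let W : Fin 4 → Σ n : ℕ, Fin n → L := fun a => ⟨n, fun i => w (a, i)⟩
  have hadj : ∀ a b : Fin 4, a < b → G.Adj (W a) (W b) := by
    intro a b hab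
    refine hG n n x (fun i => w (a, i)) y (fun i => w (b, i)) ?_ ?_ ?_ ?_ hxy
    · intro i j
      rw [hw]
      simp [R]
    · intro i j
      rw [hw, ← h1]
      simp [R]
    · intro i j
      rw [hw]
      simp [R, hab]
    · intro i j
      rw [hw]
      simp [R, hab, not_lt.2 hab.le]
  have hne : Function.Injective W := by
    intro a b hab
    rcases lt_trichotomy a b with h | h | h
    · exact absurd hab (G.ne_of_adj (hadj a b h))
    · exact h
    · exact absurd hab.symm (G.ne_of_adj (hadj b a h))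
  refine h4 (Finset.univ.map ⟨W, hne⟩) ?_
  rw [SimpleGraph.isNClique_iff]
  refine ⟨?_, by simp⟩
  intro p hp q hq hpq
  obtain ⟨a, -, rfl⟩ := Finset.mem_map.1 (Finset.mem_coe.1 hp)
  obtain ⟨b, -, rfl⟩ := Finset.mem_map.1 (Finset.mem_coe.1 hq)
  simp only [Function.Embedding.coeFn_mk] at hpq ⊢
  rcases lt_trichotomy a b with h | h | h
  · exact hadj a b h
  · exact absurd (congrArg W h) hpq
  · exact (hadj b a h).symm

/-- graphs with countably many vertices -/
theorem triColorable_of_countable {V : Type u} [Countable V] (G : SimpleGraph V) :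
    TriColorable G := by
  obtain ⟨f, hf⟩ := exists_injective_nat V
  refine ⟨fun x y => min (f x) (f y), fun x y => min_comm _ _, ?_⟩
  rintro x y z hxy hyz hxz ⟨h1, h2⟩
  have nxy : f x ≠ f y := fun h => G.ne_of_adj hxy (hf h)
  have nyz : f y ≠ f z := fun h => G.ne_of_adj hyz (hf h)
  have nxz : f x ≠ f z := fun h => G.ne_of_adj hxz (hf h)
  change min (f x) (f y) = min (f y) (f z) at h1
  change min (f y) (f z) = min (f x) (f z) at h2
  omega

/-- the type of a pair -/
def Ty : Type := Σ n : ℕ, Σ m : ℕ, (Fin n → Fin n → Prop) × (Fin m → Fin m → Prop) ×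
  (Fin n → Fin m → Prop) × (Fin m → Fin n → Prop)

instance : Countable Ty := by
  unfold Ty
  infer_instance

/-- the type of a pair -/
def ty {L : Type u} [LinearOrder L] (x y : Σ n : ℕ, Fin n → L) : Ty :=
  ⟨x.1, y.1, fun i j => x.2 i < x.2 j, fun i j => y.2 i < y.2 j, fun i j => x.2 i < y.2 j,
    fun i j => y.2 i < x.2 j⟩

theorem ty_fst {L : Type u} [LinearOrder L] {x y x' y' : Σ n : ℕ, Fin n → L}
    (h : ty x y = ty x' y') : x.1 = x'.1 := congrArg (fun t : Ty => t.1) h

theorem ty_snd {L : Type u} [LinearOrder L] {x y x' y' : Σ n : ℕ, Fin n → L}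
    (h : ty x y = ty x' y') : y.1 = y'.1 := congrArg (fun t : Ty => t.2.1) h

theorem ty_eq {L : Type u} [LinearOrder L] {n : ℕ} {x y x' y' : Fin n → L}
    (h : ty ⟨n, x⟩ ⟨n, y⟩ = ty ⟨n, x'⟩ ⟨n, y'⟩) :
    (∀ i j, x i < x j ↔ x' i < x' j) ∧ (∀ i j, y i < y j ↔ y' i < y' j) ∧
    (∀ i j, x i < y j ↔ x' i < y' j) ∧ (∀ i j, y i < x j ↔ y' i < x' j) := by
  have h1 := eq_of_heq (Sigma.mk.inj h).2
  have h2 := eq_of_heq (Sigma.mk.inj h1).2
  simp only [Prod.mk.injEq] at h2
  obtain ⟨p1, p2, p3, p4⟩ := h2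
  exact ⟨fun i j => iff_of_eq (congrFun (congrFun p1 i) j),
    fun i j => iff_of_eq (congrFun (congrFun p2 i) j),
    fun i j => iff_of_eq (congrFun (congrFun p3 i) j),
    fun i j => iff_of_eq (congrFun (congrFun p4 i) j)⟩

theorem key' {L : Type u} [LinearOrder L] [Infinite L] (G : SimpleGraph (Σ n : ℕ, Fin n → L))
    (hG : Invariant G) (h4 : G.CliqueFree 4) (x y z : Σ n : ℕ, Fin n → L) (a1 : G.Adj x y)
    (t1 : ty x y = ty y z) (t2 : ty y z = ty x z) : False := by
  obtain ⟨n, x⟩ := x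
  obtain ⟨m, y⟩ := y
  obtain ⟨k, z⟩ := z
  have e1 : n = m := ty_fst t1
  have e2 : m = k := ty_snd t1
  subst e1
  subst e2
  obtain ⟨p1, p2, p3, p4⟩ := ty_eq t1
  obtain ⟨q1, q2, q3, q4⟩ := ty_eq t2
  exact no_triple G hG h4 n x y z p1 p2 p3 (fun i j => (p3 i j).trans (q3 i j)) p4
    (fun i j => (p4 i j).trans (q4 i j)) a1

theorem main {L : Type u} [LinearOrder L] (G : SimpleGraph (Σ n : ℕ, Fin n → L))
    (hG : Invariant G) (h4 : G.CliqueFree 4) : TriColorable G := by
  classical
  rcases finite_or_infinite L with hL | hL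
  · exact triColorable_of_countable G
  obtain ⟨e, he⟩ := exists_injective_nat Ty
  let lt : (Σ n : ℕ, Fin n → L) → (Σ n : ℕ, Fin n → L) → Prop := WellOrderingRel
  have lt_tr : ∀ {x y z}, lt x y → lt y z → lt x z := fun h1 h2 =>
    trans_of WellOrderingRel h1 h2
  have lt_asymm : ∀ {x y}, lt x y → ¬lt y x := fun h1 h2 =>
    irrefl_of WellOrderingRel _ (lt_tr h1 h2)
  have lt_tri : ∀ x y, lt x y ∨ x = y ∨ lt y x := fun x y => trichotomous_of WellOrderingRel x y
  let c : (Σ n : ℕ, Fin n → L) → (Σ n : ℕ, Fin n → L) → ℕ := fun x y =>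
    if lt x y then e (ty x y) else e (ty y x)
  have key : ∀ x y z : (Σ n : ℕ, Fin n → L), lt x y → lt y z → G.Adj x y → G.Adj y z →
      G.Adj x z → c x y = c y z → c y z = c x z → False := by
    intro x y z hxy hyz a1 a2 a3 h1 h2
    have hxz := lt_tr hxy hyz
    simp only [c, hxy, hyz, hxz, if_true] at h1 h2
    exact key' G hG h4 x y z a1 (he h1) (he h2)
  have hsymm : ∀ x y, c x y = c y x := by
    intro x y
    rcases lt_tri x y with h | h | h
    · simp [c, h, lt_asymm h]
    · rw [h]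
    · simp [c, h, lt_asymm h]
  refine ⟨c, hsymm, ?_⟩
  rintro x y z hxy hyz hxz ⟨h1, h2⟩
  rcases lt_tri x y with a | a | a
  · rcases lt_tri y z with b | b | b
    · exact key x y z a b hxy hyz hxz h1 h2
    · exact G.ne_of_adj hyz b
    · rcases lt_tri x z with d | d | d
      · refine key x z y d b hxz hyz.symm hxy ?_ ?_
        · rw [hsymm z y, h2]
        · rw [hsymm z y, h1]
      · exact G.ne_of_adj hxz d
      · refine key z x y d a hxz.symm hxy hyz.symm ?_ ?_
        · rw [hsymm z x, ← h2, h1]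
        · rw [hsymm z y, h1]
  · exact G.ne_of_adj hxy a
  · rcases lt_tri y z with b | b | b
    · rcases lt_tri x z with d | d | d
      · refine key y x z a d hxy.symm hxz hyz ?_ ?_
        · rw [hsymm y x, h1, h2]
        · rw [h2]
      · exact G.ne_of_adj hxz d
      · refine key y z x b d hyz hxz.symm hxy.symm ?_ ?_
        · rw [hsymm z x, h2]
        · rw [hsymm z x, hsymm y x, ← h2, h1]
    · exact G.ne_of_adj hyz b
    · refine key z y x b a hyz.symm hxy.symm hxz.symm ?_ ?_
      · rw [hsymm z y, hsymm y x, h1]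
      · rw [hsymm y x, hsymm z x, h1, h2]

end Pool.Agent.H19Core.Types
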